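import Pool.Agent.H66.S2.Basic

/-!
EVI: an integer combination of monomials is determined by its values.
-/

namespace Pool.H66.S2

open Filter Topology

theorem s_EVI : S_EVI := by
  classical
  intro m φ h
  set N : ℕ := ∑ a ∈ φ.support, ∑ j, (a j).natAbs with hN
  have hN1 : ∀ a ∈ φ.support, ∀ j, 0 ≤ a j + N := by
    intro a ha j
    have h1 : (a j).natAbs ≤ ∑ j, (a j).natAbs :=
      Finset.single_le_sum (f := fun j => (a j).natAbs) (fun _ _ => Nat.zero_le _)
        (Finset.mem_univ j)
    have h2 : ∑ j, (a j).natAbs ≤ N := by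
      rw [hN]
      exact Finset.single_le_sum (f := fun a : Fin m → ℤ => ∑ j, (a j).natAbs)
        (fun _ _ => Nat.zero_le _) ha
    omega
  set e : (Fin m → ℤ) → (Fin m →₀ ℕ) := fun a =>
    Finsupp.equivFunOnFinite.symm fun j => (a j + N).toNat with he
  have hinj : ∀ a ∈ φ.support, ∀ b ∈ φ.support, e a = e b → a = b := by
    intro a ha b hb hab
    funext j
    have h1 : (e a) j = (e b) j := by rw [hab]
    simp only [he, Finsupp.coe_equivFunOnFinite_symm] at h1
    have h2 := hN1 a ha j
    have h3 := hN1 b hb j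
    omega
  set P : MvPolynomial (Fin m) ℂ := ∑ a ∈ φ.support, MvPolynomial.monomial (e a) (φ a : ℂ) with hP
  have heval : ∀ c : Fin m → ℂ, (∀ j, c j ≠ 0) → MvPolynomial.eval c P = 0 := by
    intro c hc
    have h1 : MvPolynomial.eval c P = (∏ j, c j ^ N) * ev φ c := by
      rw [hP, map_sum, ev, Finsupp.sum, Finset.mul_sum]
      refine Finset.sum_congr rfl fun a ha => ?_
      rw [MvPolynomial.eval_monomial, Finsupp.prod_fintype _ _ (fun i => pow_zero _), mon,
        mul_left_comm, ← Finset.prod_mul_distrib]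
      congr 1
      refine Finset.prod_congr rfl fun j _ => ?_
      simp only [he, Finsupp.coe_equivFunOnFinite_symm]
      rw [← zpow_natCast, Int.toNat_of_nonneg (hN1 a ha j), add_comm, zpow_add₀ (hc j),
        zpow_natCast]
    rw [h1, h c hc, mul_zero]
  have hP0 : P = 0 := by
    have h1 : P * ∏ j : Fin m, MvPolynomial.X j = 0 := by
      apply MvPolynomial.funext
      intro c
      rw [map_mul, map_prod, map_zero]
      by_cases hc : ∀ j, c j ≠ 0
      · rw [heval c hc, zero_mul]
      · push Not at hc
        obtain ⟨j, hj⟩ := hc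
        rw [Finset.prod_eq_zero (Finset.mem_univ j) (by rw [MvPolynomial.eval_X, hj]), mul_zero]
    rcases mul_eq_zero.1 h1 with h2 | h2
    · exact h2
    · exfalso
      rw [Finset.prod_eq_zero_iff] at h2
      obtain ⟨j, _, hj⟩ := h2
      exact MvPolynomial.X_ne_zero j hj
  ext a
  by_contra ha
  have ha' : a ∈ φ.support := Finsupp.mem_support_iff.2 ha
  have h1 : MvPolynomial.coeff (e a) P = (φ a : ℂ) := by
    rw [hP, MvPolynomial.coeff_sum, Finset.sum_eq_single a]
    · rw [MvPolynomial.coeff_monomial, if_pos rfl]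
    · intro b hb hba
      rw [MvPolynomial.coeff_monomial, if_neg fun h2 => hba (hinj b hb a ha' h2)]
    · intro h2
      exact absurd ha' h2
  rw [hP0, MvPolynomial.coeff_zero] at h1
  exact ha (by exact_mod_cast h1.symm)

end Pool.H66.S2
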