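import Pool.Agent.H66.S2.Basic

/-!
FTE: Schur functions are integer combinations of products `e_a s_mu`.
-/

namespace Pool.H66.S2

open Filter Topology

noncomputable section

/-- The alternant. -/
def FTE_alt {m : ℕ} (c : Fin m → ℂ) (γ : Fin m → ℕ) : ℂ :=
  (Matrix.of fun i j : Fin m => c i ^ γ j).det

/-- The exponents `m - 1 - j`. -/
def FTE_del {m : ℕ} (j : Fin m) : ℕ := m - 1 - (j : ℕ)

/-- The indicator function. -/
def FTE_ind {m : ℕ} (S : Finset (Fin m)) (j : Fin m) : ℕ := if j ∈ S then 1 else 0

theorem FTE_alt_perm {m : ℕ} (c : Fin m → ℂ) (γ : Fin m → ℕ) (σ : Equiv.Perm (Fin m)) :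
    FTE_alt c (γ ∘ σ) = (Equiv.Perm.sign σ : ℤ) * FTE_alt c γ := by
  unfold FTE_alt
  rw [← Matrix.det_permute' σ (Matrix.of fun i j : Fin m => c i ^ γ j)]
  rfl

theorem FTE_ne {m : ℕ} (c : Fin m → ℂ) (hc : Function.Injective c) : FTE_alt c FTE_del ≠ 0 := by
  have h1 : FTE_alt c (FTE_del ∘ (Fin.revPerm : Equiv.Perm (Fin m))) ≠ 0 := by
    have h2 : (FTE_del ∘ (Fin.revPerm : Equiv.Perm (Fin m))) = fun j : Fin m => (j : ℕ) := by
      funext j
      show m - 1 - ((Fin.rev j : Fin m) : ℕ) = j
      rw [Fin.val_rev]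
      have := j.2
      omega
    rw [h2]
    exact Matrix.det_vandermonde_ne_zero_iff.2 hc
  rw [FTE_alt_perm] at h1
  exact right_ne_zero_of_mul h1

theorem FTE_alt_zero {m : ℕ} (c : Fin m → ℂ) (γ : Fin m → ℕ) (h : ¬ Function.Injective γ) :
    FTE_alt c γ = 0 := by
  unfold Function.Injective at h
  push Not at h
  obtain ⟨i, j, hij, hne⟩ := h
  unfold FTE_alt
  apply Matrix.det_zero_of_column_eq hne
  intro k
  simp [hij]

theorem FTE_mul {m : ℕ} (a : ℕ) (c : Fin m → ℂ) (β : Fin m → ℕ) :
    (Finset.univ.val.map c).esymm a * FTE_alt c β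
      = ∑ S ∈ Finset.univ.powersetCard a, FTE_alt c fun j => β j + FTE_ind S j := by
  unfold FTE_alt
  simp only [Matrix.det_apply', Matrix.of_apply]
  have h0 : ∀ σ : Equiv.Perm (Fin m), (Finset.univ.val.map c).esymm a
      = ∑ S ∈ Finset.univ.powersetCard a, ∏ j ∈ S, c (σ j) := by
    intro σ
    have h1 : (Finset.univ.val.map c) = (Finset.univ : Finset (Fin m)).val.map (c ∘ σ) := by
      rw [← Multiset.map_map]
      congr 1
      have h2 : (Finset.univ : Finset (Fin m)).val.map σ
          = ((Finset.univ : Finset (Fin m)).map σ.toEmbedding).val := rfl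
      rw [h2, Finset.map_univ_equiv]
    rw [h1, Finset.esymm_map_val]
    rfl
  rw [Finset.mul_sum, Finset.sum_comm]
  refine Finset.sum_congr rfl fun σ _ => ?_
  rw [h0 σ, Finset.sum_mul]
  refine Finset.sum_congr rfl fun S _ => ?_
  rw [mul_left_comm]
  congr 1
  have h3 : ∏ j ∈ S, c (σ j) = ∏ j, c (σ j) ^ FTE_ind S j := by
    rw [← Finset.prod_subset (Finset.subset_univ S)]
    · refine Finset.prod_congr rfl fun j hj => ?_
      rw [FTE_ind, if_pos hj, pow_one]
    · intro j _ hj
      rw [FTE_ind, if_neg hj, pow_zero]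
  rw [h3, ← Finset.prod_mul_distrib]
  refine Finset.prod_congr rfl fun j _ => ?_
  rw [pow_add, mul_comm]

/-- Strictly decreasing sequences. -/
theorem FTE_dec {m : ℕ} (g : Fin m → ℕ) (hg : ∀ i j, i < j → g j < g i) :
    ∀ d : ℕ, ∀ i j : Fin m, (j : ℕ) = i + d → g j + d ≤ g i := by
  intro d
  induction d with
  | zero =>
    intro i j hij
    have : i = j := Fin.ext (by omega)
    rw [this]
    omega
  | succ d ih =>
    intro i j hij
    have hlt : (i : ℕ) + d < m := by have := j.2; omega
    have h1 := ih i ⟨i + d, hlt⟩ rfl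
    have h2 : g j < g ⟨i + d, hlt⟩ := hg _ _ (by
      show (i : ℕ) + d < (j : ℕ)
      omega)
    omega

theorem FTE_anti {m : ℕ} (mu : Fin m → ℕ) (hmu : Antitone mu) (S : Finset (Fin m))
    (h : Function.Injective fun j => (mu j + FTE_del j) + FTE_ind S j) :
    Antitone fun j => mu j + FTE_ind S j := by
  have hind : ∀ j, FTE_ind S j ≤ 1 := by
    intro j
    unfold FTE_ind
    split_ifs <;> omega
  have hdec : ∀ i j : Fin m, i < j →
      (mu j + FTE_del j) + FTE_ind S j < (mu i + FTE_del i) + FTE_ind S i := by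
    intro i j hij
    have h1 : (mu j + FTE_del j) + FTE_ind S j ≤ (mu i + FTE_del i) + FTE_ind S i := by
      have h2 := hmu hij.le
      have h3 := hind j
      have h4 : FTE_del j + 1 ≤ FTE_del i := by
        unfold FTE_del
        have := j.2
        have h5 : (i : ℕ) < j := hij
        omega
      omega
    rcases lt_or_eq_of_le h1 with h2 | h2
    · exact h2
    · exact absurd (h h2) hij.ne'
  intro i j hij
  rcases eq_or_lt_of_le hij with h1 | h1
  · rw [h1]
  · have h2 : (i : ℕ) < j := h1
    have h3 := FTE_dec (fun j => (mu j + FTE_del j) + FTE_ind S j) hdec ((j : ℕ) - i) i j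
      (by omega)
    have h4 : FTE_del i = FTE_del j + ((j : ℕ) - i) := by
      unfold FTE_del
      have := j.2
      omega
    beta_reduce at h3
    show mu j + FTE_ind S j ≤ mu i + FTE_ind S i
    omega

open Classical in
/-- The sets of boxes which may be added. -/
def FTE_adm {m : ℕ} (a : ℕ) (mu : Fin m → ℕ) : Finset (Finset (Fin m)) :=
  (Finset.univ.powersetCard a).filter fun S =>
    Function.Injective fun j => (mu j + FTE_del j) + FTE_ind S j

theorem FTE_pieri_inj (hJTB : S_JTB) {m : ℕ} (a : ℕ) (mu : Fin m → ℕ)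
    (c : Fin m → ℂ) (hc : Function.Injective c) :
    (Finset.univ.val.map c).esymm a * schur mu (Finset.univ.val.map c)
      = ∑ S ∈ FTE_adm a mu, schur (fun j => mu j + FTE_ind S j) (Finset.univ.val.map c) := by
  classical
  have hJ : ∀ nu : Fin m → ℕ, FTE_alt c (fun j => nu j + FTE_del j) =
      schur nu (Finset.univ.val.map c) * FTE_alt c FTE_del := fun nu => hJTB m c nu
  apply mul_right_cancel₀ (FTE_ne c hc)
  rw [mul_assoc, ← hJ, FTE_mul, Finset.sum_mul, FTE_adm, Finset.sum_filter]
  refine Finset.sum_congr rfl fun S _ => ?_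
  split_ifs with h
  · rw [← hJ]
    congr 1
    funext j
    omega
  · exact FTE_alt_zero c _ h

theorem FTE_hs_cont (m k : ℕ) :
    Continuous fun c : Fin m → ℂ => hs k (Finset.univ.val.map c) := by
  have h1 : (fun c : Fin m → ℂ => hs k (Finset.univ.val.map c))
      = fun c => ∑ l ∈ Finset.finsuppAntidiag (Finset.univ : Finset (Fin m)) k,
        ∏ i, c i ^ l i := by
    funext c
    unfold hs
    rw [Multiset.map_map]
    show PowerSeries.coeff k (∏ i : Fin m, (PowerSeries.mk fun n => c i ^ n : PowerSeries ℂ)) = _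
    rw [PowerSeries.coeff_prod]
    refine Finset.sum_congr rfl fun l _ => Finset.prod_congr rfl fun i _ => ?_
    rw [PowerSeries.coeff_mk]
  rw [h1]
  fun_prop

theorem FTE_schur_cont (m : ℕ) {r : ℕ} (lam : Fin r → ℕ) :
    Continuous fun c : Fin m → ℂ => schur lam (Finset.univ.val.map c) := by
  unfold schur JT
  apply Continuous.matrix_det
  apply continuous_matrix
  intro i j
  show Continuous fun c : Fin m → ℂ => sz (fun k => hs k (Finset.univ.val.map c)) _
  unfold sz
  split_ifs
  · exact FTE_hs_cont m _
  · exact continuous_const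

theorem FTE_esymm_cont (m a : ℕ) :
    Continuous fun c : Fin m → ℂ => (Finset.univ.val.map c).esymm a := by
  have h1 : (fun c : Fin m → ℂ => (Finset.univ.val.map c).esymm a)
      = fun c => ∑ S ∈ Finset.univ.powersetCard a, ∏ j ∈ S, c j := by
    funext c
    rw [Finset.esymm_map_val]
  rw [h1]
  fun_prop

theorem FTE_closure {m : ℕ} (c : Fin m → ℂ) :
    c ∈ closure {c : Fin m → ℂ | Function.Injective c} := by
  set p : ℂ → Fin m → ℂ := fun t j => c j + t * (j : ℂ) with hp
  have hlim : Tendsto p (𝓝[≠] (0 : ℂ)) (𝓝 c) := by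
    have h1 : Continuous p := by
      rw [hp]
      fun_prop
    have h2 : Tendsto p (𝓝 0) (𝓝 (p 0)) := h1.tendsto 0
    have h3 : p 0 = c := by
      funext j
      simp [hp]
    rw [h3] at h2
    exact h2.mono_left nhdsWithin_le_nhds
  refine mem_closure_of_tendsto hlim ?_
  have hev2 : ∀ᶠ t in 𝓝[≠] (0:ℂ), ∀ i j, i ≠ j → p t i ≠ p t j := by
    rw [eventually_all]
    intro i
    rw [eventually_all]
    intro j
    by_cases hij : i = j
    · exact Eventually.of_forall fun t h => absurd hij h
    · by_cases hcc : c i = c j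
      · filter_upwards [self_mem_nhdsWithin] with t ht _
        intro he
        simp only [hp, hcc] at he
        have h1 : t * (i : ℂ) = t * (j : ℂ) := add_left_cancel he
        have h2 : ((i : ℕ) : ℂ) = ((j : ℕ) : ℂ) := mul_left_cancel₀ ht h1
        exact hij (Fin.ext (by exact_mod_cast h2))
      · have h1 : Continuous (fun t => p t i - p t j) := by
          simp only [hp]
          fun_prop
        have h2 : (fun t => p t i - p t j) 0 ≠ 0 := by
          simp only [hp]
          simpa using sub_ne_zero.2 hcc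
        have h3 := (h1.continuousAt (x := 0)).eventually_ne h2
        filter_upwards [h3.filter_mono nhdsWithin_le_nhds] with t ht _
        exact sub_ne_zero.1 ht
  filter_upwards [hev2] with t ht i j hij
  by_contra hne
  exact ht i j hne hij

theorem FTE_pieri (hJTB : S_JTB) {m : ℕ} (a : ℕ) (mu : Fin m → ℕ) (c : Fin m → ℂ) :
    (Finset.univ.val.map c).esymm a * schur mu (Finset.univ.val.map c)
      = ∑ S ∈ FTE_adm a mu, schur (fun j => mu j + FTE_ind S j) (Finset.univ.val.map c) := by
  have hcl : IsClosed {c : Fin m → ℂ | (Finset.univ.val.map c).esymm a *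
      schur mu (Finset.univ.val.map c) = ∑ S ∈ FTE_adm a mu,
        schur (fun j => mu j + FTE_ind S j) (Finset.univ.val.map c)} :=
    isClosed_eq ((FTE_esymm_cont m a).mul (FTE_schur_cont m mu))
      (continuous_finsetSum _ fun S _ => FTE_schur_cont m _)
  have h1 := closure_minimal (fun c (hc : Function.Injective c) =>
    FTE_pieri_inj hJTB a mu c hc) hcl
  exact h1 (FTE_closure c)

open Classical in
/-- The number of nonempty rows. -/
def FTE_rows {m : ℕ} (nu : Fin m → ℕ) : Finset (Fin m) := Finset.univ.filter fun j => nu j ≠ 0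

theorem FTE_main (hJTB : S_JTB) (m k : ℕ) (hk : 1 ≤ k) : ∀ d : ℕ, ∀ nu : Fin m → ℕ,
    nu ∈ Par m k → m - (FTE_rows nu).card = d → ∃ ψ : (ℕ × (Fin m → ℕ)) →₀ ℤ,
    (∀ x ∈ ψ.support, 1 ≤ x.1 ∧ x.1 ≤ m ∧ x.1 ≤ k ∧ x.2 ∈ Par m (k - x.1)) ∧
    ∀ c : Fin m → ℂ, schur nu (Finset.univ.val.map c) = ψ.sum fun x n => (n : ℂ) *
      ((Finset.univ.val.map c).esymm x.1 * schur x.2 (Finset.univ.val.map c)) := by
  classical
  intro d
  induction d using Nat.strong_induction_on with
  | _ d ih =>
    intro nu hnu hd
    set a : ℕ := (FTE_rows nu).card with ha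
    set mu : Fin m → ℕ := fun j => nu j - 1 with hmu
    have hmem : ∀ j, j ∈ FTE_rows nu ↔ nu j ≠ 0 := fun j => by simp [FTE_rows]
    have hnumu : nu = fun j => mu j + FTE_ind (FTE_rows nu) j := by
      funext j
      simp only [hmu, FTE_ind, hmem]
      split_ifs with h1 <;> omega
    have hmuanti : Antitone mu := fun i j hij => Nat.sub_le_sub_right (hnu.1 hij) 1
    have hindsum : ∀ S : Finset (Fin m), ∑ j, FTE_ind S j = S.card := by
      intro S
      simp [FTE_ind]
    have hsum : ∑ j, mu j + a = k := by
      have h1 : ∑ j, nu j = k := hnu.2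
      rw [hnumu, Finset.sum_add_distrib, hindsum] at h1
      exact h1
    have ham : a ≤ m := by
      rw [ha]
      exact (Finset.card_le_univ _).trans (by simp)
    have ha1 : 1 ≤ a := by
      rw [ha, Nat.one_le_iff_ne_zero]
      intro h0
      rw [Finset.card_eq_zero] at h0
      have h1 : ∑ j, nu j = 0 := by
        apply Finset.sum_eq_zero
        intro j _
        by_contra hj
        have := (hmem j).2 hj
        rw [h0] at this
        exact absurd this (Finset.notMem_empty _)
      have h2 : ∑ j, nu j = k := hnu.2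
      omega
    -- the other terms of Pieri's rule
    have hother : ∀ S ∈ FTE_adm a mu, S ≠ FTE_rows nu →
        (fun j => mu j + FTE_ind S j) ∈ Par m k ∧
          m - (FTE_rows fun j => mu j + FTE_ind S j).card < d := by
      intro S hS hne
      rw [FTE_adm, Finset.mem_filter, Finset.mem_powersetCard] at hS
      obtain ⟨⟨_, hcard⟩, hinj⟩ := hS
      have hanti := FTE_anti mu hmuanti S hinj
      refine ⟨⟨hanti, ?_⟩, ?_⟩
      · rw [Finset.sum_add_distrib, hindsum, hcard]
        exact hsum
      · -- there is a new row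
        obtain ⟨j, hjS, hj⟩ : ∃ j ∈ S, j ∉ FTE_rows nu := by
          by_contra hcon
          push Not at hcon
          have h1 : S ⊆ FTE_rows nu := hcon
          exact hne (Finset.eq_of_subset_of_card_le h1 (by rw [hcard]))
        have h1 : FTE_rows nu ⊂ FTE_rows fun j => mu j + FTE_ind S j := by
          rw [Finset.ssubset_iff_of_subset]
          · refine ⟨j, ?_, hj⟩
            simp only [FTE_rows, Finset.mem_filter, Finset.mem_univ, true_and, FTE_ind, if_pos hjS]
            omega
          · intro i hi
            simp only [FTE_rows, Finset.mem_filter, Finset.mem_univ, true_and]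
            have h2 : i ≤ j := by
              by_contra hij
              push Not at hij
              have h3 := hnu.1 hij.le
              have h4 := (hmem i).1 hi
              have h5 : nu j = 0 := by
                by_contra h6
                exact hj ((hmem j).2 h6)
              omega
            have h3 := hanti h2
            beta_reduce at h3
            have h4 : FTE_ind S j = 1 := by rw [FTE_ind, if_pos hjS]
            omega
        have h2 := Finset.card_lt_card h1
        have h3 : (FTE_rows fun j => mu j + FTE_ind S j).card ≤ m :=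
          (Finset.card_le_univ _).trans (by simp)
        omega
    have hex : ∀ S : Finset (Fin m), ∃ ψ : (ℕ × (Fin m → ℕ)) →₀ ℤ,
        S ∈ FTE_adm a mu → S ≠ FTE_rows nu →
        (∀ x ∈ ψ.support, 1 ≤ x.1 ∧ x.1 ≤ m ∧ x.1 ≤ k ∧ x.2 ∈ Par m (k - x.1)) ∧
        ∀ c : Fin m → ℂ, schur (fun j => mu j + FTE_ind S j) (Finset.univ.val.map c)
          = ψ.sum fun x n => (n : ℂ) *
          ((Finset.univ.val.map c).esymm x.1 * schur x.2 (Finset.univ.val.map c)) := by
      intro S
      by_cases h : S ∈ FTE_adm a mu ∧ S ≠ FTE_rows nu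
      · obtain ⟨h1, h2⟩ := hother S h.1 h.2
        obtain ⟨ψ, hψ⟩ := ih _ h2 _ h1 rfl
        exact ⟨ψ, fun _ _ => hψ⟩
      · exact ⟨0, fun h1 h2 => absurd ⟨h1, h2⟩ h⟩
    choose Ψ hΨ using hex
    have hS0 : FTE_rows nu ∈ FTE_adm a mu := by
      rw [FTE_adm, Finset.mem_filter, Finset.mem_powersetCard]
      refine ⟨⟨Finset.subset_univ _, rfl⟩, ?_⟩
      have h1 : (fun j => (mu j + FTE_del j) + FTE_ind (FTE_rows nu) j)
          = fun j => nu j + FTE_del j := by
        funext j
        have := congrFun hnumu j
        beta_reduce at this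
        omega
      rw [h1]
      have hlt : ∀ i j : Fin m, i < j → nu j + FTE_del j < nu i + FTE_del i := by
        intro i j hij
        have h2 := hnu.1 hij.le
        have h3 : FTE_del j + 1 ≤ FTE_del i := by
          unfold FTE_del
          have := j.2
          have h5 : (i : ℕ) < j := hij
          omega
        omega
      intro i j hij
      rcases lt_trichotomy i j with h2 | h2 | h2
      · have := hlt i j h2
        beta_reduce at hij
        omega
      · exact h2
      · have := hlt j i h2
        beta_reduce at hij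
        omega
    refine ⟨Finsupp.single (a, mu) 1 - ∑ S ∈ (FTE_adm a mu).erase (FTE_rows nu), Ψ S, ?_, ?_⟩
    · intro x hx
      have h1 := Finsupp.support_sub hx
      rw [Finset.mem_union] at h1
      rcases h1 with h1 | h1
      · have h2 := Finsupp.support_single_subset h1
        rw [Finset.mem_singleton] at h2
        subst h2
        refine ⟨ha1, ham, by show a ≤ k; omega, hmuanti, ?_⟩
        show ∑ j, mu j = k - a
        omega
      · have h2 := Finsupp.support_finsetSum h1
        rw [Finset.mem_biUnion] at h2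
        obtain ⟨S, hS, hxS⟩ := h2
        rw [Finset.mem_erase] at hS
        exact (hΨ S hS.2 hS.1).1 x hxS
    · intro c
      have h1 := FTE_pieri hJTB a mu c
      rw [← Finset.add_sum_erase _ _ hS0] at h1
      have h2 : (fun j => mu j + FTE_ind (FTE_rows nu) j) = nu := hnumu.symm
      rw [h2] at h1
      rw [Finsupp.sum_sub_index (by intro x y z; push_cast; ring),
        Finsupp.sum_single_index (by simp)]
      rw [← Finsupp.sum_finsetSum_index (by simp) (by intro x y z; push_cast; ring)]
      have h3 : ∀ S ∈ (FTE_adm a mu).erase (FTE_rows nu),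
          (Ψ S).sum (fun x n => (n : ℂ) *
            ((Finset.univ.val.map c).esymm x.1 * schur x.2 (Finset.univ.val.map c)))
          = schur (fun j => mu j + FTE_ind S j) (Finset.univ.val.map c) := by
        intro S hS
        rw [Finset.mem_erase] at hS
        exact ((hΨ S hS.2 hS.1).2 c).symm
      rw [Finset.sum_congr rfl h3, Int.cast_one, one_mul, h1]
      ring

theorem s_FTE (hJTB : S_JTB) : S_FTE := by
  intro m k nu hk hnu
  exact FTE_main hJTB m k hk _ nu hnu rfl

end

end Pool.H66.S2
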