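import Pool.Agent.H66.S2.Basic

/-!
SND: different Schur functions have different weights.
-/

namespace Pool.H66.S2

open Filter Topology

/-- Vandermonde for monomials in general position. -/
theorem SND_van (hVAN : S_VAN) {m : ℕ} (c : Fin m → ℂ) (hc : ∀ j, c j ≠ 0)
    (W : Finset (Fin m → ℤ)) (hW : ∀ a ∈ W, ∀ b ∈ W, mon c a = mon c b → a = b)
    (k : (Fin m → ℤ) → ℂ) (h : ∀ n : ℕ, 1 ≤ n → ∑ a ∈ W, k a * mon c a ^ n = 0) :
    ∀ a ∈ W, k a = 0 := by
  classical
  intro a ha
  set φ : ℂ →₀ ℂ := ∑ b ∈ W, Finsupp.single (mon c b) (k b) with hφ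
  have h0 : φ = 0 := by
    apply hVAN
    · intro e he
      rw [hφ] at he
      have h1 := Finsupp.support_finsetSum he
      rw [Finset.mem_biUnion] at h1
      obtain ⟨b, _, hb⟩ := h1
      have h2 := Finsupp.support_single_subset hb
      rw [Finset.mem_singleton] at h2
      rw [h2]
      exact mon_ne c hc b
    · intro n hn
      rw [← h n hn, hφ, ← Finsupp.sum_finsetSum_index (by simp) (by intro x y z; ring)]
      refine Finset.sum_congr rfl fun b _ => ?_
      rw [Finsupp.sum_single_index (by simp)]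
  have h1 : φ (mon c a) = k a := by
    rw [hφ, Finsupp.finsetSum_apply, Finset.sum_eq_single a]
    · rw [Finsupp.single_eq_same]
    · intro b hb hba
      rw [Finsupp.single_eq_of_ne]
      intro h2
      exact hba (hW b hb a ha h2.symm)
    · intro h2
      exact absurd ha h2
  rw [← h1, h0]
  rfl

theorem s_SND (hVAN : S_VAN) (hKOS : S_KOS) : S_SND := by
  classical
  intro m k c hc hgen nu hnu mu hmu h
  obtain ⟨K, hK1, hK2, _, hK4, hK5, _⟩ := hKOS m nu hnu.1
  obtain ⟨K', hK1', hK2', _, hK4', hK5', _⟩ := hKOS m mu hmu.1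
  set W : Finset (Fin m → ℤ) := (Wt_finite m (k : ℤ) k).toFinset with hWdef
  have hWmem : ∀ a, a ∈ W ↔ a ∈ Wt m (k : ℤ) k := fun a => by
    rw [hWdef, Set.Finite.mem_toFinset]
  have key : ∀ lam ∈ Par m k, ∀ L : (Fin m → ℤ) →₀ ℤ,
      (∀ a ∈ L.support, (∀ j, 0 ≤ a j) ∧ ∑ j, a j = ∑ j, (lam j : ℤ)) → ∀ a ∈ L.support, a ∈ W := by
    intro lam hlam L hL a ha
    rw [hWmem]
    obtain ⟨h1, h2⟩ := hL a ha
    have h4 : ∑ j, (lam j : ℤ) = k := by
      have := hlam.2
      exact_mod_cast this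
    have h3 : ∑ j, |a j| = ∑ j, a j := Finset.sum_congr rfl fun j _ => abs_of_nonneg (h1 j)
    exact ⟨by rw [h2, h4], by rw [h3, h2, h4]⟩
  have hW1 := key nu hnu K hK2
  have hW2 := key mu hmu K' hK2'
  have hsum : ∀ L : (Fin m → ℤ) →₀ ℤ, (∀ a ∈ L.support, a ∈ W) → ∀ n : ℕ,
      ev L (fun j => c j ^ n) = ∑ a ∈ W, (L a : ℂ) * mon c a ^ n := by
    intro L hL n
    rw [ev_pow, Finsupp.sum]
    apply Finset.sum_subset hL
    intro a _ ha
    rw [Finsupp.notMem_support_iff.1 ha]
    simp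
  have hzero := SND_van hVAN c hc W (fun a ha b hb h =>
    mon_inj hc hgen ((hWmem a).1 ha) ((hWmem b).1 hb) h) (fun a => (K a : ℂ) - (K' a : ℂ)) (by
      intro n hn
      have h1 := h n hn
      rw [hK1, hK1', hsum K hW1, hsum K' hW2] at h1
      simp only [sub_mul, Finset.sum_sub_distrib]
      rw [h1, sub_self])
  have hKK : ∀ a, K a = K' a := by
    intro a
    by_cases ha : a ∈ W
    · have h1 := hzero a ha
      rw [sub_eq_zero] at h1
      exact_mod_cast h1
    · rw [Finsupp.notMem_support_iff.1 fun h1 => ha (hW1 a h1),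
        Finsupp.notMem_support_iff.1 fun h1 => ha (hW2 a h1)]
  have c1 : (fun j => (nu j : ℤ)) ∈ K'.support := by
    rw [Finsupp.mem_support_iff, ← hKK, hK4]
    exact one_ne_zero
  have c2 : (fun j => (mu j : ℤ)) ∈ K.support := by
    rw [Finsupp.mem_support_iff, hKK, hK4']
    exact one_ne_zero
  rcases hK5' _ c1 with d1 | ⟨i, hi1, hi2⟩
  · funext j
    exact_mod_cast congrFun d1 j
  · rcases hK5 _ c2 with d2 | ⟨i', hi1', hi2'⟩
    · funext j
      exact_mod_cast (congrFun d2 j).symm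
    · exfalso
      rcases lt_trichotomy i i' with h1 | h1 | h1
      · have := hi1' i h1
        omega
      · subst h1
        omega
      · have := hi1 i' h1
        omega

end Pool.H66.S2
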