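import Pool.Agent.H66.S2.Basic

/-!
VIR: virtual representations form a ring which contains the Schur functors.
-/

namespace Pool.H66.S2

open Filter Topology

theorem VIR_sum (A : AData) (Q : Multiset A.Cusp) : (fun p => (A.eigs Q p).sum) ∈ A.VV := by
  induction Q using Multiset.induction_on with
  | empty =>
    have : (fun p => (A.eigs (0 : Multiset A.Cusp) p).sum) = 0 := by
      funext p
      rw [eigs_zero]
      rfl
    rw [this]
    exact A.VV.zero_mem
  | cons z Q ih =>
    have : (fun p => (A.eigs (z ::ₘ Q) p).sum) = A.tr z + fun p => (A.eigs Q p).sum := by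
      funext p
      rw [eigs_cons, Multiset.sum_add]
      rfl
    rw [this]
    exact A.VV.add_mem (AddSubgroup.subset_closure ⟨z, rfl⟩) ih

theorem VIR_mul (hTEN : S_TEN) (A : Aut) (h : A.HasSE 2) :
    ∀ F ∈ A.VV, ∀ G ∈ A.VV, F * G ∈ A.VV := by
  intro F hF G hG
  refine AddSubgroup.closure_induction (p := fun F _ => F * G ∈ A.VV) ?_ ?_ ?_ ?_ hF
  · rintro _ ⟨z, rfl⟩
    refine AddSubgroup.closure_induction (p := fun G _ => A.tr z * G ∈ A.VV) ?_ ?_ ?_ ?_ hG
    · rintro _ ⟨w, rfl⟩
      obtain ⟨T, hT⟩ := hTEN A h {z} {w}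
      have : A.tr z * A.tr w = fun p => (A.eigs T p).sum := by
        funext p
        rw [hT p, eigs_singleton, eigs_singleton]
        rfl
      rw [this]
      exact VIR_sum A.toAData T
    · rw [mul_zero]
      exact A.VV.zero_mem
    · intro x y _ _ hx hy
      rw [mul_add]
      exact A.VV.add_mem hx hy
    · intro x _ hx
      rw [mul_neg]
      exact A.VV.neg_mem hx
  · rw [zero_mul]
    exact A.VV.zero_mem
  · intro x y _ _ hx hy
    rw [add_mul]
    exact A.VV.add_mem hx hy
  · intro x _ hx
    rw [neg_mul]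
    exact A.VV.neg_mem hx

/-- The functions `hs k` and `esymm k` of the eigenvalues are virtual representations. -/
theorem VIR_he (hHSB : S_HSB) (hEHR : S_EHR) (hTEN : S_TEN) (A : Aut) (hS : ∀ k, A.HasSE k)
    (P : Multiset A.Cusp) : ∀ k : ℕ, (fun p => hs k (A.eigs P p)) ∈ A.VV ∧
      (fun p => (A.eigs P p).esymm k) ∈ A.VV := by
  have hmul := VIR_mul hTEN A (hS 2)
  have he0 : ∀ X : Multiset ℂ, X.esymm 0 = 1 := fun X => by simp [Multiset.esymm]
  have hone : (1 : A.Pt → ℂ) ∈ A.VV := by
    rcases hS 0 with h | h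
    · obtain ⟨Q, hQ⟩ := h P
      have : (1 : A.Pt → ℂ) = fun p => (A.eigs Q p).sum := by
        funext p
        rw [hQ p, hHSB.1]
        rfl
      rw [this]
      exact VIR_sum A.toAData Q
    · obtain ⟨Q, hQ⟩ := h P
      have : (1 : A.Pt → ℂ) = fun p => (A.eigs Q p).sum := by
        funext p
        rw [hQ p, he0]
        rfl
      rw [this]
      exact VIR_sum A.toAData Q
  intro k
  induction k using Nat.strong_induction_on with
  | _ k ih =>
    rcases Nat.eq_zero_or_pos k with hk | hk
    · subst hk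
      constructor
      · have : (fun p => hs 0 (A.eigs P p)) = 1 := by
          funext p
          rw [hHSB.1]
          rfl
        rw [this]
        exact hone
      · have : (fun p => (A.eigs P p).esymm 0) = 1 := by
          funext p
          rw [he0]
          rfl
        rw [this]
        exact hone
    · obtain ⟨j, rfl⟩ : ∃ j, k = j + 1 := ⟨k - 1, by omega⟩
      -- the middle terms
      set F : A.Pt → ℂ := ∑ i ∈ Finset.range j, ((-1 : ℤ) ^ (i + 1)) •
        ((fun p : A.Pt => (A.eigs P p).esymm (i + 1)) * fun p => hs (j - i) (A.eigs P p)) with hF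
      have hFV : F ∈ A.VV := by
        refine AddSubgroup.sum_mem _ fun i hi => AddSubgroup.zsmul_mem _ ?_ _
        rw [Finset.mem_range] at hi
        exact hmul _ (ih (i + 1) (by omega)).2 _ (ih (j - i) (by omega)).1
      have hrel : ∀ p, hs (j + 1) (A.eigs P p) + F p
          + (-1 : ℂ) ^ (j + 1) * (A.eigs P p).esymm (j + 1) = 0 := by
        intro p
        have h1 := hEHR (j + 1) (A.eigs P p) hk
        rw [Finset.sum_range_succ, Finset.sum_range_succ'] at h1
        rw [← h1, hF, Finset.sum_apply]
        simp only [pow_zero, he0, Nat.sub_zero, Nat.sub_self, hHSB.1, one_mul, mul_one,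
          Pi.smul_apply, Pi.mul_apply, zsmul_eq_mul]
        rw [add_comm (hs (j + 1) (A.eigs P p))]
        congr 2
        refine Finset.sum_congr rfl fun i _ => ?_
        have h2 : j + 1 - (i + 1) = j - i := by omega
        rw [h2]
        push_cast
        ring
      have hsq : ((-1 : ℂ) ^ (j + 1)) * ((-1 : ℂ) ^ (j + 1)) = 1 := by
        rw [← mul_pow]
        norm_num
      rcases hS (j + 1) with h | h
      · obtain ⟨Q, hQ⟩ := h P
        have hh : (fun p => hs (j + 1) (A.eigs P p)) ∈ A.VV := by
          have : (fun p => hs (j + 1) (A.eigs P p)) = fun p => (A.eigs Q p).sum := by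
            funext p
            rw [hQ p]
          rw [this]
          exact VIR_sum A.toAData Q
        refine ⟨hh, ?_⟩
        have : (fun p => (A.eigs P p).esymm (j + 1)) = (-((-1 : ℤ) ^ (j + 1))) •
            ((fun p => hs (j + 1) (A.eigs P p)) + F) := by
          funext p
          show (A.eigs P p).esymm (j + 1) = (-((-1 : ℤ) ^ (j + 1))) •
            (hs (j + 1) (A.eigs P p) + F p)
          rw [zsmul_eq_mul]
          push_cast
          linear_combination ((-1 : ℂ) ^ (j + 1)) * hrel p - (A.eigs P p).esymm (j + 1) * hsq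
        rw [this]
        exact AddSubgroup.zsmul_mem _ (AddSubgroup.add_mem _ hh hFV) _
      · obtain ⟨Q, hQ⟩ := h P
        have hh : (fun p => (A.eigs P p).esymm (j + 1)) ∈ A.VV := by
          have : (fun p => (A.eigs P p).esymm (j + 1)) = fun p => (A.eigs Q p).sum := by
            funext p
            rw [hQ p]
          rw [this]
          exact VIR_sum A.toAData Q
        refine ⟨?_, hh⟩
        have : (fun p => hs (j + 1) (A.eigs P p)) = -F + (-((-1 : ℤ) ^ (j + 1))) •
            (fun p => (A.eigs P p).esymm (j + 1)) := by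
          funext p
          show hs (j + 1) (A.eigs P p) = -F p + (-((-1 : ℤ) ^ (j + 1))) •
            (A.eigs P p).esymm (j + 1)
          rw [zsmul_eq_mul]
          push_cast
          linear_combination hrel p
        rw [this]
        exact AddSubgroup.add_mem _ (AddSubgroup.neg_mem _ hFV) (AddSubgroup.zsmul_mem _ hh _)

/-- Jacobi-Trudi determinants of sequences of virtual representations. -/
theorem VIR_det (A : Aut) (hmul : ∀ F ∈ A.VV, ∀ G ∈ A.VV, F * G ∈ A.VV)
    (hone : (1 : A.Pt → ℂ) ∈ A.VV) (a : ℕ → A.Pt → ℂ) (ha : ∀ k, a k ∈ A.VV)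
    (r : ℕ) (lam : Fin r → ℕ) : (fun p => JT (fun k => a k p) lam) ∈ A.VV := by
  have hent : ∀ n : ℤ, (fun p : A.Pt => sz (fun k => a k p) n) ∈ A.VV := by
    intro n
    unfold sz
    by_cases hn : 0 ≤ n
    · simp only [if_pos hn]
      exact ha n.toNat
    · simp only [if_neg hn]
      exact A.VV.zero_mem
  have hprod : ∀ (S : Finset (Fin r)) (f : Fin r → A.Pt → ℂ), (∀ i, f i ∈ A.VV) →
      ∏ i ∈ S, f i ∈ A.VV := by
    intro S f hf
    classical
    induction S using Finset.induction_on with
    | empty => exact hone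
    | insert a S ha ih =>
      rw [Finset.prod_insert ha]
      exact hmul _ (hf a) _ ih
  have hdet : (fun p => JT (fun k => a k p) lam) = ∑ σ : Equiv.Perm (Fin r),
      (Equiv.Perm.sign σ : ℤ) • ∏ i, (fun p : A.Pt => sz (fun k => a k p)
        ((lam (σ i) : ℤ) - ((σ i : Fin r) : ℤ) + (i : ℤ))) := by
    funext p
    unfold JT
    rw [Matrix.det_apply, Finset.sum_apply]
    refine Finset.sum_congr rfl fun σ _ => ?_
    rw [Pi.smul_apply, Finset.prod_apply]
    rfl
  rw [hdet]
  refine AddSubgroup.sum_mem _ fun σ _ => AddSubgroup.zsmul_mem _ ?_ _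
  exact hprod _ _ fun i => hent _

theorem s_VIR (hHSB : S_HSB) (hEHR : S_EHR) (hTEN : S_TEN) : S_VIR := by
  intro A hS
  have hmul := VIR_mul hTEN A (hS 2)
  refine ⟨hmul, fun r lam P => ?_⟩
  have h := VIR_he hHSB hEHR hTEN A hS P
  have hone : (1 : A.Pt → ℂ) ∈ A.VV := by
    have h0 := (h 0).1
    have : (fun p => hs 0 (A.eigs P p)) = (1 : A.Pt → ℂ) := by
      funext p
      rw [hHSB.1]
      rfl
    rwa [this] at h0
  exact ⟨VIR_det A hmul hone (fun k p => hs k (A.eigs P p)) (fun k => (h k).1) r lam,
    VIR_det A hmul hone (fun k p => (A.eigs P p).esymm k) (fun k => (h k).2) r lam⟩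

end Pool.H66.S2
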